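import Pool.Agent.P.MP_17c400_co.LogMain

set_option autoImplicit false

namespace Pool.Agent.Results.MP_17c400_co.IrredundantCover

/-- If the `m` affine hyperplanes `a i ⬝ᵥ x = c i` cover `F^n` and none of them can be dropped,
then `q d ≤ 36000 (log₂ q + 5) m`, where `q` is the size of the finite field `F` and `d` is the
dimension of the span of the normal vectors. -/
theorem result (F : Type) [Field F] [Fintype F] (n m : ℕ) (a : Fin m → Fin n → F) (c : Fin m → F)
    (hcov : ∀ x : Fin n → F, ∃ i : Fin m, a i ⬝ᵥ x = c i)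
    (hirr : ∀ j : Fin m, ∃ x : Fin n → F, ∀ i : Fin m, i ≠ j → a i ⬝ᵥ x ≠ c i) :
    Fintype.card F * Module.finrank F (Submodule.span F (Set.range a)) ≤
      36000 * (Nat.log 2 (Fintype.card F) + 5) * m := by
  have h := Pool.Agent.P.MP_17c400_co.irredundant_size a c hcov hirr
  rwa [Fintype.card_fin] at h

end Pool.Agent.Results.MP_17c400_co.IrredundantCover
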