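import Pool.Agent.P.MP_17c400_co.LogMain

set_option autoImplicit false

namespace Pool.Agent.Results.MP_17c400_co.LogThreshold

/-- Over a finite field with at least `18000 k s (log₂ (k s) + 5)` elements (or more than
`400 (k s)^2` elements), for any `k` nonsingular matrices and any sets of at most `s` forbidden
values, one set for each row of each matrix, some vector `x` makes every coordinate of every
`M i x` avoid its forbidden set. -/
theorem result (F : Type) [Field F] [Fintype F] (k s n : ℕ)
    (hq : 18000 * (k * s) * (Nat.log 2 (k * s) + 5) ≤ Fintype.card F ∨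
      400 * (k * s) ^ 2 < Fintype.card F)
    (M : Fin k → Matrix (Fin n) (Fin n) F) (hM : ∀ i, IsUnit (M i).det)
    (S : Fin k → Fin n → Finset F) (hS : ∀ i j, (S i j).card ≤ s) :
    ∃ x : Fin n → F, ∀ i : Fin k, ∀ j : Fin n, (M i).mulVec x j ∉ S i j :=
  hq.elim (fun h => Pool.Agent.P.MP_17c400_co.matrices_sets_log M S hS h hM)
    (fun h => Pool.Agent.P17c400.matrices_sets M S hS h hM)

end Pool.Agent.Results.MP_17c400_co.LogThreshold
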